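import Pool.Agent.Lib.MP_78c6b1_al.Rig.Fin
import Pool.Agent.Lib.MP_78c6b1_al.Neg.Iface4
import Pool.Agent.Lib.MP_78c6b1_al.Neg.LazEx

/-! The nonstandard level `2 p`: transfer from the group to its Lazard ring. -/

set_option autoImplicit false

namespace Pool.Agent.P78

open scoped commutatorElement

namespace Rig

variable {G : Type} [Group G] {S : NSer G} {L : Type} [LieRing L] (Z : Laz (S.F 2) L)

/-- the group element with a given logarithm -/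
def ex (a : L) : G := (Z.ℓ.symm a : S.F 2)

@[simp] lemma ex_ℓ (g : S.F 2) : ex Z (Z.ℓ g) = g := by simp [ex]

/-- logarithms of the terms of the series -/
def Φ (k : ℕ) : AddSubgroup L := Z.log ((S.F k).subgroupOf (S.F 2))

variable {Z}

lemma mem_Φ {k : ℕ} {a : L} : a ∈ Φ Z k ↔ ex Z a ∈ S.F k := Iff.rfl

lemma ℓ_mem_Φ {k : ℕ} {g : S.F 2} : Z.ℓ g ∈ Φ Z k ↔ (g : G) ∈ S.F k := by rw [mem_Φ, ex_ℓ]

lemma Φ_mono {k l : ℕ} {a : L} (ha : a ∈ Φ Z k) (h : l ≤ k) : a ∈ Φ Z l := S.anti h ha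

lemma Φ_two (a : L) : a ∈ Φ Z 2 := (Z.ℓ.symm a).2

lemma Φ_lie {i j : ℕ} {a b : L} (ha : a ∈ Φ Z i) (hb : b ∈ Φ Z j) : ⁅a, b⁆ ∈ Φ Z (i + j) :=
  Z.log_comm (Subgroup.commutator_le.2 fun _ hg _ hh => NSer.comm_mem (S := S) hg hh) ha hb

lemma Φ_up {i : ℕ} (b : L) : ∀ a ∈ Φ Z i, ⁅a, b⁆ ∈ Φ Z (i + 1) := fun _ ha =>
  Φ_mono (Φ_lie ha (Φ_two b)) (by omega)

lemma Φ_ideal {i : ℕ} (b : L) : ∀ a ∈ Φ Z i, ⁅a, b⁆ ∈ Φ Z i := fun a ha =>
  Φ_mono (Φ_up b a ha) (by omega)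

lemma lev_congr {A : Type} [AddCommGroup A] {i : ℕ} {φ : G → A} (h : IsLev S i φ) {a b : L}
    (hb : b ∈ Φ Z i) (hab : a - b ∈ Φ Z (i + 1)) : φ (ex Z a) = φ (ex Z b) := by
  obtain ⟨g, rfl⟩ := Z.ℓ.surjective a
  obtain ⟨k, rfl⟩ := Z.ℓ.surjective b
  rw [← Z.div_mem_iff _ (Φ_ideal _) (Φ_ideal _), ℓ_mem_Φ] at hab
  rw [ex_ℓ, ex_ℓ]
  exact h.congr' (ℓ_mem_Φ.1 hb) hab

lemma lev_add {A : Type} [AddCommGroup A] {i : ℕ} {φ : G → A} (h : IsLev S i φ) {a b : L}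
    (ha : a ∈ Φ Z i) (hb : b ∈ Φ Z i) : φ (ex Z (a + b)) = φ (ex Z a) + φ (ex Z b) := by
  obtain ⟨g, rfl⟩ := Z.ℓ.surjective a
  obtain ⟨k, rfl⟩ := Z.ℓ.surjective b
  have h1 : Z.ℓ (g * k) - (Z.ℓ g + Z.ℓ k) ∈ Φ Z (i + 1) := by
    rw [Z.mul, add_sub_cancel_left]
    exact evC_mem _ _ (Φ_up _ _ ha) (Φ_ideal _) (Φ_ideal _)
  rw [← lev_congr h (add_mem ha hb) h1, ex_ℓ, ex_ℓ, ex_ℓ]
  exact h.add _ (ℓ_mem_Φ.1 ha) _ (ℓ_mem_Φ.1 hb)

lemma lev_lie {A : Type} [AddCommGroup A] {i j : ℕ} {φ : G → A} (h : IsLev S (i + j) φ) {a b : L}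
    (ha : a ∈ Φ Z i) (hb : b ∈ Φ Z j) : φ (ex Z ⁅a, b⁆) = φ ⁅ex Z a, ex Z b⁆ := by
  obtain ⟨g, rfl⟩ := Z.ℓ.surjective a
  obtain ⟨k, rfl⟩ := Z.ℓ.surjective b
  have h1 : Z.ℓ ⁅g, k⁆ - ⁅Z.ℓ g, Z.ℓ k⁆ ∈ Φ Z (i + j + 1) := by
    rw [Z.comm, add_sub_cancel_left]
    exact evC_mem₁ Z.βc_nil _ _ (Φ_lie ha hb) (fun _ h => Φ_mono h (by omega)) (Φ_up _) (Φ_up _)
  rw [← lev_congr h (Φ_lie ha hb) h1, ex_ℓ, ex_ℓ, ex_ℓ]
  rfl

lemma lie_eq_zero_iff (a b : L) : ⁅a, b⁆ = 0 ↔ ⁅ex Z a, ex Z b⁆ = 1 := by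
  obtain ⟨g, rfl⟩ := Z.ℓ.surjective a
  obtain ⟨k, rfl⟩ := Z.ℓ.surjective b
  rw [← Z.commute_iff, ← commutatorElement_eq_one_iff_commute, ex_ℓ, ex_ℓ, Subtype.ext_iff]
  rfl

variable (Z) in
/-- conjugation minus the identity -/
def dl (x : G) : AddMonoid.End L :=
  Z.hom (MulAut.conjNormal x : S.F 2 ≃* S.F 2).toMonoidHom - AddMonoidHom.id L

lemma dl_ℓ (x : G) (g : S.F 2) : dl Z x (Z.ℓ g) = Z.ℓ (MulAut.conjNormal x g) - Z.ℓ g := by
  show Z.hom _ (Z.ℓ g) - Z.ℓ g = _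
  rw [Z.hom_ℓ]
  rfl

lemma dl_lie (x : G) (a b : L) :
    dl Z x ⁅a, b⁆ = ⁅dl Z x a, b⁆ + ⁅a, dl Z x b⁆ + ⁅dl Z x a, dl Z x b⁆ := by
  show Z.hom _ ⁅a, b⁆ - ⁅a, b⁆ = ⁅Z.hom _ a - a, b⁆ + ⁅a, Z.hom _ b - b⁆ +
    ⁅Z.hom _ a - a, Z.hom _ b - b⁆
  rw [Z.hom_lie]
  simp only [sub_lie, lie_sub]
  abel

lemma coe_div (x : G) (g : S.F 2) :
    ((g⁻¹ * MulAut.conjNormal x g : S.F 2) : G) = ⁅(g : G)⁻¹, x⁆ := by
  simp [commutatorElement_def, mul_assoc]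

lemma dl_mem (x : G) {j : ℕ} {a : L} (ha : a ∈ Φ Z j) : dl Z x a ∈ Φ Z (j + 1) := by
  obtain ⟨g, rfl⟩ := Z.ℓ.surjective a
  rw [dl_ℓ, ← Z.div_mem_iff _ (Φ_ideal _) (Φ_ideal _), ℓ_mem_Φ, coe_div]
  exact NSer.comm_mem (inv_mem (ℓ_mem_Φ.1 ha)) (S.mem_one x)

lemma lev_dl {A : Type} [AddCommGroup A] (x : G) {j : ℕ} {φ : G → A} (h : IsLev S (j + 1) φ)
    {a : L} (ha : a ∈ Φ Z j) : φ (ex Z (dl Z x a)) = φ ⁅(ex Z a)⁻¹, x⁆ := by
  have hm := dl_mem x ha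
  obtain ⟨g, rfl⟩ := Z.ℓ.surjective a
  rw [dl_ℓ] at hm ⊢
  have h1 : Z.ℓ (g⁻¹ * MulAut.conjNormal x g) - (Z.ℓ (MulAut.conjNormal x g) - Z.ℓ g) ∈
      Φ Z (j + 1 + 1) := by
    rw [Z.mul, Z.inv, neg_add_eq_sub, add_sub_cancel_left]
    refine evC_mem _ _ ?_ (Φ_ideal _) (Φ_ideal _)
    have := Φ_up (Z.ℓ g) _ hm
    rwa [sub_lie, lie_self, sub_zero, ← lie_skew, ← neg_lie] at this
  rw [← lev_congr h hm h1, ex_ℓ, ex_ℓ, coe_div]

end Rig

open Rig in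
theorem rigStmt (hA : RigAlg) : RigStmt := by
  obtain ⟨p₀, hA⟩ := hA
  refine ⟨max p₀ 7, fun p hp hp₀ G _ _ hG X r T hμ hz hr hbot _ i j hi h2 hij h0 => ?_⟩
  have hp7 : 7 ≤ p := le_of_max_le_right hp₀
  have hS : ∀ i, 1 ≤ i → inS X.μ i := fun i hi => ⟨hi, by omega, by omega⟩
  have hker : ∀ i, 1 ≤ i → i < 2 * p → ∀ a ∈ X.S.F i, T.ε i a = 0 → a ∈ X.S.F (i + 1) :=
    fun i h1 hi a ha h => T.ker' h1 (by omega) le_rfl (fun e => by subst e; exact hz) ha h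
  have hlcs : ∀ n, (⊤ : Subgroup (X.S.F 2)).lowerCentralSeries (n + 1) ≤
      (X.S.F (2 * n + 5)).subgroupOf (X.S.F 2) := by
    intro n
    induction n with
    | zero =>
      refine Subgroup.commutator_le.2 fun g _ k _ => ?_
      refine hker (2 + 2) (by omega) (by omega) _ (NSer.comm_mem g.2 k.2) ?_
      exact (T.br 2 2 (by omega) (by omega) (by omega) _ g.2 _ k.2).trans (by simp)
    | succ n ih =>
      refine Subgroup.commutator_le.2 fun g hg k _ => ?_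
      exact NSer.comm_mem' (S := X.S) (ih hg) k.2 (by omega)
  obtain ⟨L, _, Z, -⟩ := lazard p (X.S.F 2) (hG.to_subgroup _) (p - 1) (by omega) (by omega) (by
    have h := hlcs (p - 2)
    rw [show p - 2 + 1 = p - 1 by omega, show 2 * (p - 2) + 5 = 2 * p + 1 by omega, hbot,
      Subgroup.bot_subgroupOf] at h
    exact le_bot_iff.1 h)
  have hlev : ∀ i, 1 ≤ i → i < 2 * p → IsLev X.S i (T.ε i) := fun i h1 h =>
    T.lev i h1 (by omega)
  have hmin : ∀ {i : ℕ}, i ≤ 2 * p → min i (2 * p) = i := fun h => min_eq_left h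
  let F : Fil p L :=
    { Ψ := fun n => Φ Z (min n (2 * p))
      η := fun n a => T.ε n (ex Z a)
      δ := dl Z (T.e 1)
      anti := fun _ _ h _ ha => Φ_mono ha (by omega)
      stab := fun _ _ ha => Φ_mono ha (by omega)
      pk := fun w hw => by
        obtain ⟨g, rfl⟩ := Z.ℓ.surjective w
        rw [min_self, ℓ_mem_Φ] at hw
        have h := X.elem (2 * p) (by omega) _ hw
        rw [hbot, Subgroup.mem_bot] at h
        rw [← Z.pow, Z.eq_one_iff]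
        exact Subtype.ext h
      lie := fun i j _ _ a ha b hb => Φ_mono (Φ_lie ha hb) (by omega)
      add := fun i hi h a ha b hb => by
        rw [hmin h.le] at ha hb
        exact lev_add (hlev i (by omega) h) ha hb
      zero := fun i hi h a ha => by
        rw [hmin h] at ha
        exact (hlev i (by omega) h).zero _ ha
      ker := fun i hi h a ha h' => by
        rw [hmin h.le] at ha
        rw [hmin h]
        exact hker i (by omega) h _ ha h'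
      ex := fun i hi h => by
        have he := T.e_mem i (by omega)
        refine ⟨Z.ℓ ⟨T.e i, X.S.anti hi he⟩, ?_, ?_⟩
        · rw [hmin h.le, ℓ_mem_Φ]; exact he
        · rw [ex_ℓ]; exact T.e_one i (by omega) (hS i (by omega))
      br := fun i j hi hj h a ha b hb => by
        rw [hmin (by omega)] at ha hb
        rw [lev_lie (hlev (i + j) (by omega) h) ha hb]
        exact T.br i j (by omega) (by omega) (by omega) _ ha _ hb
      δ_mem := fun j _ a ha => Φ_mono (dl_mem _ ha) (by omega)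
      δ_η := fun j hj h a ha => by
        rw [hmin (by omega)] at ha
        rw [lev_dl _ (hlev (j + 1) (by omega) h) ha,
          T.br j 1 (by omega) le_rfl (by omega) _ (inv_mem (mem_Φ.1 ha)) _ (X.S.mem_one _),
          (hlev j (by omega) (by omega)).inv (mem_Φ.1 ha), T.e_one 1 (by omega) (hS 1 le_rfl)]
        push_cast
        ring
      δ_lie := dl_lie _ }
  have hΨ : ∀ {n : ℕ} {a : L}, n ≤ 2 * p → (a ∈ F.Ψ n ↔ ex Z a ∈ X.S.F n) := fun h => by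
    show _ ∈ Φ Z (min _ (2 * p)) ↔ _
    rw [hmin h, mem_Φ]
  have : Finite L := Finite.of_equiv _ Z.ℓ
  have hexinj : Function.Injective (ex Z) := Subtype.val_injective.comp Z.ℓ.symm.injective
  rcases fin F (hA p (le_of_max_le_left hp₀)) hp7 hi h2 hij (fun a ha b hb =>
    (lie_eq_zero_iff a b).2 (h0 _ ((hΨ (by omega)).1 ha) _ ((hΨ (by omega)).1 hb))) with h | h
  · refine Or.inl fun y hy => ?_
    obtain ⟨u, hu, h3, h4⟩ := h (Z.ℓ ⟨y, X.S.anti hi hy⟩) ((hΨ (by omega)).2 (by simpa using hy))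
    refine ⟨ex Z u, (hΨ (by omega)).1 hu, ?_, ?_⟩
    · simpa [F] using h3
    · simpa using (lie_eq_zero_iff (Z := Z) _ _).1 h4
  · right
    refine le_trans (Nat.mul_le_mul_left p ?_) (h.trans (Nat.mul_le_mul_left 2 ?_))
    · refine Nat.card_le_card_of_injective
        (fun y => ⟨Z.ℓ ⟨y.1, X.S.anti hi y.2.1⟩, ?_, ?_, ?_⟩) fun y y' e => ?_
      · exact (hΨ (by omega)).2 (by simpa using y.2.1)
      · exact fun h => y.2.2.1 (by simpa using (hΨ (by omega)).1 h)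
      · obtain ⟨u, hu, hu', h3⟩ := y.2.2.2
        refine ⟨Z.ℓ ⟨u, X.S.anti (by omega) hu⟩, (hΨ (by omega)).2 (by simpa using hu),
          fun h => hu' (by simpa using (hΨ (by omega)).1 h), ?_⟩
        rw [lie_eq_zero_iff (Z := Z)]
        simpa using h3
      · have e1 := Z.ℓ.injective (Subtype.ext_iff.1 e)
        have e2 := Subtype.ext_iff.1 e1
        exact Subtype.ext e2
    · exact Nat.card_le_card_of_injective
        (fun a : F.Ψ i => (⟨ex Z a, (hΨ (by omega)).1 a.2⟩ : X.S.F i))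
        fun a b e => by
          have e1 := Subtype.ext_iff.1 e
          exact Subtype.ext (hexinj e1)

end Pool.Agent.P78
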