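import Pool.Agent.Lib.MP_78c6b1_al.Rig.Log

/-! Filtered Lie rings of Witt type with an automorphism `1 + δ`, and the derivation `D`. -/

set_option autoImplicit false

namespace Pool.Agent.P78.Rig

open Finset

/-- a filtration whose layers `2, …, 2 p - 1` are of Witt type, constant from `2 p` on -/
structure Fil (p : ℕ) (L : Type) [LieRing L] where
  Ψ : ℕ → AddSubgroup L
  η : ℕ → L → ZMod p
  δ : AddMonoid.End L
  anti : Antitone Ψ
  stab : ∀ n, Ψ (2 * p) ≤ Ψ n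
  pk : ∀ w ∈ Ψ (2 * p), p • w = 0
  lie : ∀ i j, 2 ≤ i → 2 ≤ j → ∀ a ∈ Ψ i, ∀ b ∈ Ψ j, ⁅a, b⁆ ∈ Ψ (i + j)
  add : ∀ i, 2 ≤ i → i < 2 * p → ∀ a ∈ Ψ i, ∀ b ∈ Ψ i, η i (a + b) = η i a + η i b
  zero : ∀ i, 2 ≤ i → i < 2 * p → ∀ a ∈ Ψ (i + 1), η i a = 0
  ker : ∀ i, 2 ≤ i → i < 2 * p → ∀ a ∈ Ψ i, η i a = 0 → a ∈ Ψ (i + 1)
  ex : ∀ i, 2 ≤ i → i < 2 * p → ∃ e ∈ Ψ i, η i e = 1
  br : ∀ i j, 2 ≤ i → 2 ≤ j → i + j < 2 * p → ∀ a ∈ Ψ i, ∀ b ∈ Ψ j,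
    η (i + j) ⁅a, b⁆ = ((j : ZMod p) - i) * η i a * η j b
  δ_mem : ∀ j, 2 ≤ j → ∀ a ∈ Ψ j, δ a ∈ Ψ (j + 1)
  δ_η : ∀ j, 2 ≤ j → j + 1 < 2 * p → ∀ a ∈ Ψ j, η (j + 1) (δ a) = ((j : ZMod p) - 1) * η j a
  δ_lie : ∀ a b, δ ⁅a, b⁆ = ⁅δ a, b⁆ + ⁅a, δ b⁆ + ⁅δ a, δ b⁆

variable {p : ℕ} {L : Type} [LieRing L]

namespace Fil

variable (F : Fil p L)

/-- `a` has level at least `N` and leading coefficient `c` -/
def Ev (N : ℕ) (a : L) (c : ZMod p) : Prop := 2 ≤ N ∧ a ∈ F.Ψ N ∧ (N < 2 * p → F.η N a = c)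

variable {F}

lemma mono {i j : ℕ} {a : L} (ha : a ∈ F.Ψ i) (h : j ≤ i) : a ∈ F.Ψ j := F.anti h ha

lemma deep {i j : ℕ} {a : L} (ha : a ∈ F.Ψ i) (h : 2 * p ≤ i) : a ∈ F.Ψ j :=
  F.stab j (F.anti h ha)

lemma lie' {i j m : ℕ} {a b : L} (hi : 2 ≤ i) (hj : 2 ≤ j) (ha : a ∈ F.Ψ i) (hb : b ∈ F.Ψ j)
    (h : m ≤ i + j) : ⁅a, b⁆ ∈ F.Ψ m := mono (F.lie i j hi hj a ha b hb) h

lemma ev_self {N : ℕ} {a : L} (hN : 2 ≤ N) (ha : a ∈ F.Ψ N) : F.Ev N a (F.η N a) :=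
  ⟨hN, ha, fun _ => rfl⟩

lemma ev_deep {N M : ℕ} {a : L} (hN : 2 ≤ N) (ha : a ∈ F.Ψ M) (h : N < M) : F.Ev N a 0 :=
  ⟨hN, mono ha h.le, fun h' => F.zero N hN h' a (mono ha h)⟩

namespace Ev

variable {N : ℕ} {a b : L} {c d : ZMod p}

lemma mem (h : F.Ev N a c) : a ∈ F.Ψ N := h.2.1

lemma ker (h : F.Ev N a 0) : a ∈ F.Ψ (N + 1) := by
  rcases lt_or_ge N (2 * p) with h' | h'
  · exact F.ker N h.1 h' a h.mem (h.2.2 h')
  · exact deep h.mem h'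

lemma uniq (h : F.Ev N a c) (h' : F.Ev N a d) (hN : N < 2 * p) : c = d :=
  (h.2.2 hN).symm.trans (h'.2.2 hN)

lemma congr (h : F.Ev N a c) {M : ℕ} (hM : N = M) (hb : a = b) (hd : c = d) : F.Ev M b d := by
  subst hM hb hd; exact h

lemma add (h : F.Ev N a c) (h' : F.Ev N b d) : F.Ev N (a + b) (c + d) :=
  ⟨h.1, add_mem h.mem h'.mem, fun hN => by
    rw [F.add N h.1 hN a h.mem b h'.mem, h.2.2 hN, h'.2.2 hN]⟩

lemma neg (h : F.Ev N a c) : F.Ev N (-a) (-c) :=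
  ⟨h.1, neg_mem h.mem, fun hN => by
    have h1 := F.add N h.1 hN a h.mem (-a) (neg_mem h.mem)
    rw [add_neg_cancel, F.zero N h.1 hN 0 (zero_mem _), h.2.2 hN] at h1
    exact (neg_eq_of_add_eq_zero_right h1.symm).symm⟩

lemma sub (h : F.Ev N a c) (h' : F.Ev N b d) : F.Ev N (a - b) (c - d) := by
  rw [sub_eq_add_neg, sub_eq_add_neg]; exact h.add h'.neg

lemma nsmul (h : F.Ev N a c) (n : ℕ) : F.Ev N (n • a) (n * c) := by
  induction n with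
  | zero => simpa using ev_deep h.1 (zero_mem (F.Ψ (N + 1))) (Nat.lt_succ_self N)
  | succ n ih => exact (ih.add h).congr rfl (succ_nsmul a n).symm (by push_cast; ring)

lemma zsmul (h : F.Ev N a c) (n : ℤ) : F.Ev N (n • a) (n * c) := by
  cases n with
  | ofNat n => simpa using h.nsmul n
  | negSucc n =>
    exact (h.nsmul (n + 1)).neg.congr rfl (negSucc_zsmul a n).symm
      (by rw [Int.cast_negSucc]; ring)

lemma lie {M : ℕ} (h : F.Ev N a c) (h' : F.Ev M b d) :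
    F.Ev (N + M) ⁅a, b⁆ (((M : ZMod p) - N) * c * d) :=
  ⟨by have := h.1; omega, F.lie N M h.1 h'.1 a h.mem b h'.mem, fun hN => by
    rw [F.br N M h.1 h'.1 hN a h.mem b h'.mem, h.2.2 (by omega), h'.2.2 (by omega)]⟩

lemma δ (h : F.Ev N a c) : F.Ev (N + 1) (F.δ a) (((N : ZMod p) - 1) * c) :=
  ⟨by have := h.1; omega, F.δ_mem N h.1 a h.mem, fun hN => by
    rw [F.δ_η N h.1 hN a h.mem, h.2.2 (by omega)]⟩

end Ev

lemma δ_pow {j : ℕ} (hj : 2 ≤ j) {a : L} (ha : a ∈ F.Ψ j) (k : ℕ) :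
    (F.δ ^ k) a ∈ F.Ψ (j + k) := by
  induction k with
  | zero => simpa using ha
  | succ k ih =>
    rw [pow_succ', AddMonoid.End.coe_mul, Function.comp_apply]
    exact F.δ_mem (j + k) (by omega) _ ih

lemma lg_apply {M : Type} [AddCommGroup M] (n : ℕ) (T : AddMonoid.End M) (v : M) :
    lg n T v = ∑ k ∈ range n, lc n k • (T ^ (k + 1)) v := by
  let e : AddMonoid.End M →+ M := AddMonoidHom.mk' (fun S => S v) fun _ _ => rfl
  show e (lg n T) = _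
  rw [lg, map_sum]
  exact sum_congr rfl fun k _ => map_zsmul e _ _

variable (F) in
/-- the logarithm of the automorphism -/
def D : AddMonoid.End L := -lg (p - 1) F.δ

lemma D_apply (v : L) : F.D v = -∑ k ∈ range (p - 1), lc (p - 1) k • (F.δ ^ (k + 1)) v := by
  rw [← lg_apply]; rfl

lemma D_ev [hp : Fact p.Prime] {N : ℕ} {a : L} {c : ZMod p} (h : F.Ev N a c) :
    F.Ev (N + 1) (F.D a) (((N : ZMod p) - 1) * c) := by
  have h2 := hp.out.two_le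
  have hw := ZMod.wilsons_lemma p
  rw [D_apply]
  obtain ⟨n, hn⟩ : ∃ n, p - 1 = n + 1 := ⟨p - 2, by omega⟩
  rw [hn] at hw ⊢
  rw [sum_range_succ']
  have h1 : ∑ k ∈ range n, lc (n + 1) (k + 1) • (F.δ ^ (k + 1 + 1)) a ∈ F.Ψ (N + 2) :=
    sum_mem fun k _ => zsmul_mem (mono (δ_pow h.1 h.mem _) (by omega)) _
  refine ((ev_deep (by have := h.1; omega) h1 (by omega)).add
    (h.δ.zsmul (lc (n + 1) 0))).neg.congr rfl (by simp) ?_
  simp [lc, hw]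

/-- two variable functions that raise the level by `m` -/
def Rs (F : Fil p L) (m : ℕ) (B : L → L → L) : Prop :=
  ∀ i j, 2 ≤ i → 2 ≤ j → ∀ a ∈ F.Ψ i, ∀ b ∈ F.Ψ j, B a b ∈ F.Ψ (i + j + m)

theorem D_leib (hp : 1 ≤ p) {i j : ℕ} (hi : 2 ≤ i) (hj : 2 ≤ j) {a b : L} (ha : a ∈ F.Ψ i)
    (hb : b ∈ F.Ψ j) : F.D ⁅a, b⁆ - ⁅F.D a, b⁆ - ⁅a, F.D b⁆ ∈ F.Ψ (i + j + p) := by
  let J : ℕ → AddSubgroup (AddMonoid.End (L → L → L)) := fun n =>
    { carrier := {r | ∀ m B, F.Rs m B → F.Rs (m + n) (r B)}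
      add_mem' := fun hr hs m B hB i j hi hj a ha b hb =>
        add_mem (hr m B hB i j hi hj a ha b hb) (hs m B hB i j hi hj a ha b hb)
      zero_mem' := fun m B hB i j hi hj a ha b hb => zero_mem _
      neg_mem' := fun hr m B hB i j hi hj a ha b hb => neg_mem (hr m B hB i j hi hj a ha b hb) }
  let x : AddMonoid.End (L → L → L) := AddMonoidHom.mk' (fun B a b => B (F.δ a) b) fun _ _ => rfl
  let y : AddMonoid.End (L → L → L) := AddMonoidHom.mk' (fun B a b => B a (F.δ b)) fun _ _ => rfl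
  have key := lg_add J
    (fun n n' h r hr m B hB i j hi hj a ha b hb => mono (hr m B hB i j hi hj a ha b hb) (by omega))
    (fun m B hB => hB)
    (fun m n r hr s hs k B hB => by
      have := hr _ _ (hs k B hB)
      rwa [show k + n + m = k + (m + n) by ring] at this)
    (x := x) (y := y) rfl
    (fun m B hB i j hi hj a ha b hb =>
      mono (hB (i + 1) j (by omega) hj _ (F.δ_mem i hi a ha) b hb) (by omega))
    (fun m B hB i j hi hj a ha b hb =>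
      mono (hB i (j + 1) hi (by omega) a ha _ (F.δ_mem j hj b hb)) (by omega)) (p - 1)
  have h0 : F.Rs 0 fun a b => ⁅a, b⁆ := fun i j hi hj a ha b hb => F.lie i j hi hj a ha b hb
  have h1 := key 0 _ h0 i j hi hj a ha b hb
  have hx : ∀ k, (x ^ k) (fun a b => ⁅a, b⁆) = fun a b => ⁅(F.δ ^ k) a, b⁆ := by
    intro k
    induction k with
    | zero => rfl
    | succ k ih =>
      rw [pow_succ', AddMonoid.End.coe_mul, Function.comp_apply, ih, pow_succ]; rfl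
  have hy : ∀ k, (y ^ k) (fun a b => ⁅a, b⁆) = fun a b => ⁅a, (F.δ ^ k) b⁆ := by
    intro k
    induction k with
    | zero => rfl
    | succ k ih =>
      rw [pow_succ', AddMonoid.End.coe_mul, Function.comp_apply, ih, pow_succ]; rfl
  have hw : ∀ k, ((x + y + x * y) ^ k) (fun a b => ⁅a, b⁆) = fun a b => (F.δ ^ k) ⁅a, b⁆ := by
    intro k
    induction k with
    | zero => rfl
    | succ k ih =>
      rw [pow_succ', AddMonoid.End.coe_mul, Function.comp_apply, ih, pow_succ]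
      funext a b
      show (F.δ ^ k) ⁅F.δ a, b⁆ + (F.δ ^ k) ⁅a, F.δ b⁆ + (F.δ ^ k) ⁅F.δ a, F.δ b⁆ =
        (F.δ ^ k) (F.δ ⁅a, b⁆)
      rw [F.δ_lie, map_add, map_add]
  have e : ((lg (p - 1) (x + y + x * y) - lg (p - 1) x - lg (p - 1) y) fun a b => ⁅a, b⁆) a b =
      -(F.D ⁅a, b⁆ - ⁅F.D a, b⁆ - ⁅a, F.D b⁆) := by
    show (lg (p - 1) (x + y + x * y) fun a b => ⁅a, b⁆) a b -
      (lg (p - 1) x fun a b => ⁅a, b⁆) a b - (lg (p - 1) y fun a b => ⁅a, b⁆) a b = _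
    simp only [lg_apply, hx, hy, hw, D_apply, Finset.sum_apply, Pi.smul_apply, neg_lie, lie_neg,
      sum_lie, lie_sum, zsmul_lie, lie_zsmul]
    abel
  rw [e] at h1
  exact mono (neg_mem_iff.1 h1) (by omega)

end Fil

end Pool.Agent.P78.Rig
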