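import Pool.Agent.Lib.MP_78c6b1_al.Rig.Ind
import Pool.Agent.Lib.MP_78c6b1_al.Neg.Wlem

/-! The quadratic form at level `2 p`. -/

set_option autoImplicit false

namespace Pool.Agent.P78.Rig

open Finset

variable {p : ℕ} {L : Type} [LieRing L] [hp : Fact p.Prime] {F : Fil p L}

lemma climb {a l₀ l : ℕ} {v d : L} {c : ZMod p} (hv : F.Ev a v c) (hc : c ≠ 0) (h0 : 2 ≤ l₀)
    (hd : d ∈ F.Ψ l₀) (hvd : ⁅v, d⁆ ∈ F.Ψ (2 * p)) (hl : l₀ ≤ l)
    (hne : ∀ m, l₀ ≤ m → m < l → (m : ZMod p) - a ≠ 0) (hlt : a + l ≤ 2 * p) : d ∈ F.Ψ l := by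
  induction l, hl using Nat.le_induction with
  | base => exact hd
  | succ l hl ih =>
    have h1 := Fil.ev_self (by omega) (ih (fun m h h' => hne m h (by omega)) (by omega))
    have h2 := (hv.lie h1).uniq (Fil.ev_deep (by omega) hvd (by omega)) (by omega)
    have h3 := (mul_eq_zero.1 h2).resolve_left (mul_ne_zero (hne l hl (by omega)) hc)
    exact (h1.congr rfl rfl h3).ker

lemma p_shift {a : ℕ} {e : L} (he : F.Ev a e 1) (ha : 2 * a ≤ p) : p • e ∈ F.Ψ (a + p) := by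
  have h2 := he.1
  refine climb he one_ne_zero (l₀ := a + 1) (by omega)
    ((he.nsmul p).congr rfl rfl (by simp)).ker (by simp) (by omega)
    (fun m h h' => cast_sub_ne (by omega) h') (by omega)

lemma p_top {E : ℕ → L} (hE : ∀ j, 2 ≤ j → F.Ev j (E j) 1) (hp7 : 7 ≤ p) {m : ℕ} (hm : p ≤ m)
    {v : L} (hv : v ∈ F.Ψ m) : p • v ∈ F.Ψ (2 * p) := by
  have key : ∀ d m, p ≤ m → 2 * p ≤ m + d → ∀ v ∈ F.Ψ m, p • v ∈ F.Ψ (2 * p) := by
    intro d
    induction d with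
    | zero => exact fun m _ h v hv => nsmul_mem (Fil.mono hv h) _
    | succ d ih =>
      intro m hm h v hv
      obtain ⟨a, ha, ha', hne⟩ : ∃ a : ℕ, 2 ≤ a ∧ a ≤ 3 ∧ ((m - a : ℕ) : ZMod p) - a ≠ 0 := by
        by_contra hc
        push Not at hc
        have h2 := hc 2 (by omega) (by omega)
        have h3 := hc 3 (by omega) (by omega)
        rw [Nat.cast_sub (by omega)] at h2 h3
        refine cast_ne_zero' (p := p) (n := 2) (by omega) (by omega) ?_
        push_cast at *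
        linear_combination h2 - h3
      have h1 := ((hE a ha).lie (hE (m - a) (by omega))).congr (M := m) (by omega) rfl rfl
      have h2 := ((Fil.ev_self (by omega) hv).sub
        (h1.nsmul (F.η m v / (((m - a : ℕ) : ZMod p) - a)).val)).congr rfl rfl (d := 0) (by
          rw [ZMod.natCast_zmod_val]; field_simp; ring)
      have h3 := ih (m + 1) (by omega) (by omega) _ h2.ker
      have h4 : p • ⁅E a, E (m - a)⁆ ∈ F.Ψ (2 * p) := by
        rw [← nsmul_lie]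
        exact Fil.lie' (by omega) (by omega) (p_shift (hE a ha) (by omega))
          (hE (m - a) (by omega)).mem (by omega)
      have h5 := add_mem h3 (nsmul_mem h4 (F.η m v / (((m - a : ℕ) : ZMod p) - a)).val)
      convert h5 using 1
      module
  exact key p m hm (by omega) v hv

lemma cancel {w : L} (hw : w ∈ F.Ψ (2 * p)) {n : ℤ} (hn : (n : ZMod p) ≠ 0) (h : n • w = 0) :
    w = 0 := by
  obtain ⟨c, hc⟩ : (p : ℤ) ∣ (((n : ZMod p)⁻¹).val : ℤ) * n - 1 := by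
    rw [← ZMod.intCast_zmod_eq_zero_iff_dvd]
    push_cast
    rw [ZMod.natCast_zmod_val, inv_mul_cancel₀ hn, sub_self]
  have h1 : ((((n : ZMod p)⁻¹).val : ℤ) * n - 1) • w = 0 := by
    rw [hc, mul_comm, mul_smul, natCast_zsmul, F.pk w hw, smul_zero]
  rwa [sub_smul, mul_smul, h, smul_zero, one_smul, zero_sub, neg_eq_zero] at h1

variable (S : Sta F (p - 4)) (i : ℕ)

/-- `u` is obtained from `v` by shifting the basis by `p` -/
def Rel (v u : L) : Prop :=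
  ∃ n : ℕ → ℤ, v - ∑ a ∈ Ico i p, n a • S.E a ∈ F.Ψ p ∧ u = ∑ a ∈ Ico i p, n a • S.E (a + p)

variable {S i}

omit hp in
lemma Rel.line {v u v₀ u₀ : L} (h : Rel S i v u) (h₀ : Rel S i v₀ u₀) (t : ℤ) :
    Rel S i (v + t • v₀) (u + t • u₀) := by
  obtain ⟨n, hn, rfl⟩ := h
  obtain ⟨m, hm, rfl⟩ := h₀
  refine ⟨fun a => n a + t * m a, ?_, ?_⟩
  · convert add_mem hn (zsmul_mem hm t) using 1
    simp only [add_smul, mul_smul, sum_add_distrib, ← smul_sum]
    module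
  · simp only [add_smul, mul_smul, sum_add_distrib, ← smul_sum]

lemma exists_rel (hi : 2 ≤ i) (hip : i ≤ p) {v : L} (hv : v ∈ F.Ψ i) : ∃ u, Rel S i v u := by
  have key : ∀ m, i ≤ m → ∃ n : ℕ → ℤ, v - ∑ a ∈ Ico i m, n a • S.E a ∈ F.Ψ m := by
    intro m hm
    induction m, hm using Nat.le_induction with
    | base => exact ⟨0, by simpa using hv⟩
    | succ m hm ih =>
      obtain ⟨n, hn⟩ := ih
      have h1 := Fil.ev_self (by omega) hn
      generalize F.η m (v - ∑ a ∈ Ico i m, n a • S.E a) = c at h1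
      refine ⟨fun a => if a = m then (c.val : ℤ) else n a, ?_⟩
      have h2 := (h1.sub ((S.hE m (by omega)).zsmul (c.val : ℤ))).congr rfl rfl (d := 0) (by simp)
      have e : ∑ a ∈ Ico i m, (if a = m then (c.val : ℤ) else n a) • S.E a =
          ∑ a ∈ Ico i m, n a • S.E a :=
        sum_congr rfl fun a ha => by rw [if_neg (mem_Ico.1 ha).2.ne]
      beta_reduce
      rw [sum_Ico_succ_top hm, if_pos rfl, e, ← sub_sub]
      exact h2.ker
  obtain ⟨n, hn⟩ := key p hip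
  exact ⟨_, n, hn, rfl⟩

omit hp in
lemma Rel.ev (hi : 2 ≤ i) (hip : i < p) {v u : L} (h : Rel S i v u) :
    ∃ c, F.Ev i v c ∧ F.Ev (i + p) u c := by
  obtain ⟨n, hn, rfl⟩ := h
  rw [sum_eq_sum_Ico_succ_bot hip] at hn ⊢
  have h1 : ∑ a ∈ Ico (i + 1) p, n a • S.E a ∈ F.Ψ (i + 1) := sum_mem fun a ha =>
    zsmul_mem (Fil.mono (S.hE a (by have := (mem_Ico.1 ha).1; omega)).mem (mem_Ico.1 ha).1) _
  have h2 : ∑ a ∈ Ico (i + 1) p, n a • S.E (a + p) ∈ F.Ψ (i + p + 1) := sum_mem fun a ha =>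
    zsmul_mem (Fil.mono (S.hE (a + p) (by omega)).mem (by have := (mem_Ico.1 ha).1; omega)) _
  refine ⟨n i, ?_, ?_⟩
  · exact ((Fil.ev_deep hi hn hip).add (((S.hE i hi).zsmul (n i)).add
      (Fil.ev_deep hi h1 (by omega)))).congr rfl (by abel) (by ring)
  · exact (((S.hE (i + p) (by omega)).zsmul (n i)).add
      (Fil.ev_deep (by omega) h2 (by omega))).congr rfl rfl (by ring)

lemma Rel.lie (hp7 : 7 ≤ p) (hi : 2 ≤ i) (hip : i < p) {v u : L} (h : Rel S i v u) :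
    ⁅v, u⁆ ∈ F.Ψ (2 * p) := by
  obtain ⟨c, -, hu⟩ := h.ev hi hip
  obtain ⟨n, hn, rfl⟩ := h
  have h1 := Fil.lie' (m := 2 * p) (by omega) (by omega) hn hu.mem (by omega)
  rw [sub_lie] at h1
  suffices h2 : ⁅∑ a ∈ Ico i p, n a • S.E a, ∑ a ∈ Ico i p, n a • S.E (a + p)⁆ ∈ F.Ψ (2 * p) by
    simpa using add_mem h1 h2
  have e1 : ⁅∑ a ∈ Ico i p, n a • S.E a, ∑ a ∈ Ico i p, n a • S.E (a + p)⁆ =
      ∑ a ∈ Ico i p, ∑ b ∈ Ico i p, ((n a * n b) • (p • S.E (a + b + p) + S.r a (b + p)) +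
        ((n a * n b * b) • S.E (a + b + p) - (n a * n b * a) • S.E (a + b + p))) := by
    rw [sum_lie]
    refine sum_congr rfl fun a ha => ?_
    rw [lie_sum]
    refine sum_congr rfl fun b _ => ?_
    rw [zsmul_lie, lie_zsmul, S.lie_E (by have := (mem_Ico.1 ha).1; omega), ← add_assoc,
      ← natCast_zsmul]
    push_cast
    module
  have e2 : ∑ a ∈ Ico i p, ∑ b ∈ Ico i p, (n a * n b * b) • S.E (a + b + p) =
      ∑ a ∈ Ico i p, ∑ b ∈ Ico i p, (n a * n b * a) • S.E (a + b + p) := by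
    rw [sum_comm]
    refine sum_congr rfl fun a _ => sum_congr rfl fun b _ => ?_
    rw [add_comm b a, mul_comm (n b)]
  rw [e1]
  simp only [sum_add_distrib, sum_sub_distrib]
  rw [e2, sub_self, add_zero]
  refine sum_mem fun a ha => sum_mem fun b hb => zsmul_mem (add_mem ?_ ?_) _
  · exact p_top S.hE hp7 (by omega) (S.hE (a + b + p) (by omega)).mem
  · have := (mem_Ico.1 ha).1
    have := (mem_Ico.1 hb).1
    exact Fil.mono (S.err a (b + p) (by omega) (by omega)) (by omega)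

variable (F i) in
/-- elements of exact level `i` commuting with an element of exact level `i + p` -/
def Bad (v : L) : Prop :=
  v ∈ F.Ψ i ∧ v ∉ F.Ψ (i + 1) ∧ ∃ u ∈ F.Ψ (i + p), u ∉ F.Ψ (i + p + 1) ∧ ⁅v, u⁆ = 0

lemma Bad.zero (hp7 : 7 ≤ p) {j : ℕ} (hi : 2 ≤ i) (h2 : 2 * i < p) (hij : i + j = 2 * p)
    (h0 : ∀ a ∈ F.Ψ i, ∀ b ∈ F.Ψ j, ⁅a, b⁆ = 0) {v u : L} (hb : Bad F i v) (h : Rel S i v u) :
    ⁅v, u⁆ = 0 := by
  obtain ⟨-, hv', u', hu', hu'', h1⟩ := hb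
  obtain ⟨c, hv, hu⟩ := h.ev hi (by omega)
  have hq := h.lie hp7 hi (by omega)
  have hc : c ≠ 0 := fun e => hv' (hv.congr rfl rfl e).ker
  have h3 := Fil.ev_self (by omega) hu'
  generalize F.η (i + p) u' = a at h3
  have ha : a ≠ 0 := fun e => hu'' (h3.congr rfl rfl e).ker
  have hd := ((hu.zsmul (a.val : ℤ)).sub (h3.zsmul (c.val : ℤ))).congr rfl rfl (d := 0)
    (by simp [mul_comm])
  have e : ⁅v, (a.val : ℤ) • u - (c.val : ℤ) • u'⁆ = (a.val : ℤ) • ⁅v, u⁆ := by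
    rw [lie_sub, lie_zsmul, lie_zsmul, h1, smul_zero, sub_zero]
  have h4 := climb hv hc (l := j) (by omega) hd.ker (by rw [e]; exact zsmul_mem hq _) (by omega)
    (fun m h h' => by
      have := cast_sub_ne (p := p) (i := i + p) (j := m) (by omega) (by omega)
      simpa using this) (by omega)
  refine cancel hq (n := a.val) (by simpa using ha) ?_
  rw [← e]
  exact h0 _ hv.mem _ h4

lemma three (hp7 : 7 ≤ p) (hi : 2 ≤ i) (hip : i < p) {v u v₀ u₀ : L} (h : Rel S i v u)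
    (h₀ : Rel S i v₀ u₀) {a b c : ℕ} (ha : a < p) (hb : b < p) (hc : c < p) (hab : a ≠ b)
    (hac : a ≠ c) (hbc : b ≠ c) (qa : ⁅v + (a : ℤ) • v₀, u + (a : ℤ) • u₀⁆ = 0)
    (qb : ⁅v + (b : ℤ) • v₀, u + (b : ℤ) • u₀⁆ = 0)
    (qc : ⁅v + (c : ℤ) • v₀, u + (c : ℤ) • u₀⁆ = 0) : ⁅v₀, u₀⁆ = 0 := by
  have hne : ∀ x y : ℕ, x < p → y < p → x ≠ y → (x : ZMod p) - y ≠ 0 := fun x y hx hy hxy => by
    rcases lt_or_gt_of_ne hxy with h | h
    · rw [← neg_sub, neg_ne_zero]; exact cast_sub_ne h (by omega)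
    · exact cast_sub_ne h (by omega)
  refine cancel (h₀.lie hp7 hi hip) (n := ((a : ℤ) - b) * ((a : ℤ) - c) * ((b : ℤ) - c)) ?_ ?_
  · push_cast
    exact mul_ne_zero (mul_ne_zero (hne a b ha hb hab) (hne a c ha hc hac)) (hne b c hb hc hbc)
  · simp only [add_lie, lie_add, zsmul_lie, lie_zsmul] at qa qb qc
    linear_combination (norm := module) ((b : ℤ) - c) • qa - ((a : ℤ) - c) • qb + ((a : ℤ) - b) • qc

theorem fin [Finite L] (F : Fil p L) (hA : Alg p) (hp7 : 7 ≤ p) {i j : ℕ} (hi : 2 ≤ i)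
    (h2 : 2 * i < p) (hij : i + j = 2 * p) (h0 : ∀ a ∈ F.Ψ i, ∀ b ∈ F.Ψ j, ⁅a, b⁆ = 0) :
    (∀ v ∈ F.Ψ i, ∃ u ∈ F.Ψ (i + p), F.η (i + p) u = F.η i v ∧ ⁅v, u⁆ = 0) ∨
      p * Nat.card {v : L // Bad F i v} ≤ 2 * Nat.card (F.Ψ i) := by
  classical
  obtain ⟨S⟩ := exists_sta F hA (p - 4) (by omega) (by omega)
  by_cases hq : ∀ v u, Rel S i v u → ⁅v, u⁆ = 0
  · refine Or.inl fun v hv => ?_
    obtain ⟨u, hu⟩ := exists_rel (S := S) hi (by omega) hv
    obtain ⟨c, h3, h4⟩ := hu.ev hi (by omega)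
    exact ⟨u, h4.mem, (h4.2.2 (by omega)).trans (h3.2.2 (by omega)).symm, hq v u hu⟩
  · push Not at hq
    obtain ⟨v₀, u₀, h₀, hq⟩ := hq
    obtain ⟨c, hv₀, -⟩ := h₀.ev hi (by omega)
    right
    have := Fintype.ofFinite L
    have e1 : Nat.card {v : L // Bad F i v} = #(univ.filter (Bad F i)) := by
      rw [Nat.card_eq_fintype_card, Fintype.card_subtype]
    have e2 : Nat.card (F.Ψ i) = #(univ.filter fun v => v ∈ F.Ψ i) := by
      rw [Nat.card_eq_fintype_card, Fintype.card_subtype]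
    rw [e1, e2, mul_comm 2]
    have key := card_mul_le_card_mul (s := range p) (t := univ.filter fun v => v ∈ F.Ψ i)
      (m := #(univ.filter (Bad F i))) (n := 2) (fun (t : ℕ) (v : L) => Bad F i (v + (t : ℤ) • v₀))
      (fun t _ => ?_) (fun v hv => ?_)
    · rwa [card_range] at key
    · refine card_le_card_of_injOn (fun b => b - (t : ℤ) • v₀) (fun b hb => ?_)
        (fun b _ b' _ h => sub_left_injective h)
      have hb' : Bad F i b := by simpa using hb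
      simp only [coe_bipartiteAbove, coe_filter, mem_univ, true_and, Set.mem_setOf_eq,
        sub_add_cancel, mem_filter]
      exact ⟨sub_mem hb'.1 (zsmul_mem hv₀.mem _), hb'⟩
    · by_contra hc
      obtain ⟨a, b, c, ha, hb, hc, hab, hac, hbc⟩ := two_lt_card_iff.1 (not_le.1 hc)
      rw [mem_bipartiteBelow, mem_range] at ha hb hc
      obtain ⟨u, hu⟩ := exists_rel (S := S) hi (by omega) (mem_filter.1 hv).2
      exact hq (three hp7 hi (by omega) hu h₀ ha.1 hb.1 hc.1 hab hac hbc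
        (ha.2.zero hp7 hi h2 hij h0 (hu.line h₀ a)) (hb.2.zero hp7 hi h2 hij h0 (hu.line h₀ b))
        (hc.2.zero hp7 hi h2 hij h0 (hu.line h₀ c)))

end Pool.Agent.P78.Rig
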