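import Pool.Agent.Lib.MP_78c6b1_al.Rig.Fil

/-! Successive improvement of the basis of a filtered Lie ring of Witt type. -/

set_option autoImplicit false

namespace Pool.Agent.P78.Rig

variable {p : ℕ} {L : Type} [LieRing L]

/-- the cohomological input for one prime -/
def Alg (p : ℕ) : Prop :=
  ∀ (s : ZMod p) (W : ℕ), p + 2 ≤ W → W < 2 * p →
    ∀ g : ℕ → ℕ → ZMod p, (∀ i j, 1 ≤ i → 1 ≤ j → i + j ≤ W → g j i = -g i j) →
      (∀ i j k : ℕ, 1 ≤ i → 2 ≤ j → 2 ≤ k → i + j + k ≤ W →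
        ((j : ZMod p) - i) * g (i + j) k + g i j * ((k : ZMod p) - i - j - s) +
        (((k : ZMod p) - j) * g (j + k) i + g j k * ((i : ZMod p) - j - k - s)) +
        (((i : ZMod p) - k) * g (k + i) j + g k i * ((j : ZMod p) - k - i - s)) = 0) →
      ∃ t : ℕ → ZMod p, ∀ i j : ℕ, 1 ≤ i → 1 ≤ j → i + j ≤ W →
        g i j = t i * ((j : ZMod p) - i - s) + t j * ((j : ZMod p) - i + s) -
          ((j : ZMod p) - i) * t (i + j)

/-- the adjoint map -/
def adj (a : L) : L →+ L := AddMonoidHom.mk' (fun v => ⁅a, v⁆) (lie_add a)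

@[simp] lemma adj_apply (a v : L) : adj a v = ⁅a, v⁆ := rfl

/-- a basis satisfying the Witt relations up to an error of relative level `s` -/
structure Sta (F : Fil p L) (s : ℕ) where
  A : ℕ → L →+ L
  E : ℕ → L
  hE : ∀ j, 2 ≤ j → F.Ev j (E j) 1
  ad : ∀ i, 2 ≤ i → ∀ v, A i v = ⁅E i, v⁆
  ev : ∀ i, 1 ≤ i → ∀ m v c, F.Ev m v c → F.Ev (i + m) (A i v) (((m : ZMod p) - i) * c)
  leib : ∀ i, 1 ≤ i → ∀ j k, 2 ≤ j → 2 ≤ k → ∀ a ∈ F.Ψ j, ∀ b ∈ F.Ψ k,
    A i ⁅a, b⁆ - ⁅A i a, b⁆ - ⁅a, A i b⁆ ∈ F.Ψ (j + k + p)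
  err : ∀ i j, 1 ≤ i → 2 ≤ j → A i (E j) - ((j : ℤ) - i) • E (i + j) ∈ F.Ψ (i + j + s)

lemma sta_one [hp : Fact p.Prime] (F : Fil p L) : Nonempty (Sta F 1) := by
  have h1 : ∀ j, ∃ e, 2 ≤ j → F.Ev j e 1 := fun j => by
    by_cases h : 2 ≤ j ∧ j < 2 * p
    · obtain ⟨e, he, he'⟩ := F.ex j h.1 h.2
      exact ⟨e, fun hj => ⟨hj, he, fun _ => he'⟩⟩
    · exact ⟨0, fun hj => ⟨hj, zero_mem _, fun h' => absurd ⟨hj, h'⟩ h⟩⟩
  choose E hE using h1
  let A : ℕ → L →+ L := fun i => if i = 1 then F.D else adj (E i)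
  have hA1 : ∀ v, A 1 v = F.D v := fun v => rfl
  have hA2 : ∀ i, 2 ≤ i → ∀ v, A i v = ⁅E i, v⁆ := fun i hi v => by
    simp only [A, if_neg (show i ≠ 1 by omega), adj_apply]
  have hev : ∀ i, 1 ≤ i → ∀ m v c, F.Ev m v c →
      F.Ev (i + m) (A i v) (((m : ZMod p) - i) * c) := fun i hi m v c h => by
    rcases hi.eq_or_lt with rfl | hi
    · exact (Fil.D_ev h).congr (add_comm _ _) (hA1 v).symm (by simp)
    · exact ((hE i hi).lie h).congr rfl (hA2 i hi v).symm (by ring)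
  refine ⟨⟨A, E, hE, hA2, hev, fun i hi j k hj hk a ha b hb => ?_, fun i j hi hj => ?_⟩⟩
  · rcases hi.eq_or_lt with rfl | hi
    · simp only [hA1]
      exact Fil.D_leib hp.out.one_le hj hk ha hb
    · simp only [hA2 i hi]
      rw [leibniz_lie]
      simpa using zero_mem _
  · exact (((hev i hi j _ _ (hE j hj)).sub
      ((hE (i + j) (by omega)).zsmul ((j : ℤ) - i))).congr rfl rfl (by push_cast; ring)).ker

namespace Sta

variable {F : Fil p L} {s : ℕ} (S : Sta F s)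

/-- the error -/
def r (i j : ℕ) : L := S.A i (S.E j) - ((j : ℤ) - i) • S.E (i + j)

/-- leading coefficient of the error -/
def h (i j : ℕ) : ZMod p := F.η (i + j + s) (S.r i j)

lemma r_ev {i j : ℕ} (hi : 1 ≤ i) (hj : 2 ≤ j) : F.Ev (i + j + s) (S.r i j) (S.h i j) :=
  Fil.ev_self (by omega) (S.err i j hi hj)

lemma A_E (i j : ℕ) : S.A i (S.E j) = ((j : ℤ) - i) • S.E (i + j) + S.r i j := by
  rw [r]; abel

lemma lie_E {i : ℕ} (hi : 2 ≤ i) (j : ℕ) :
    ⁅S.E i, S.E j⁆ = ((j : ℤ) - i) • S.E (i + j) + S.r i j := by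
  rw [← S.ad i hi, A_E]

lemma h_anti {i j : ℕ} (hi : 2 ≤ i) (hj : 2 ≤ j) (hN : i + j + s < 2 * p) :
    S.h j i = -S.h i j := by
  refine ((S.r_ev (by omega) hi).congr (by omega) ?_ rfl).uniq (S.r_ev (by omega) hj).neg hN
  rw [r, r, S.ad i hi, S.ad j hj, add_comm j i, ← lie_skew (S.E j)]
  module

lemma cocycle {i j k : ℕ} (hi : 1 ≤ i) (hj : 2 ≤ j) (hk : 2 ≤ k) (hs : i + s < p ∨ 2 ≤ i)
    (hN : i + j + k + s < 2 * p) :
    ((k : ZMod p) - j) * S.h i (j + k) + ((j : ZMod p) + k + s - i) * S.h j k -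
      ((j : ZMod p) - i) * S.h (i + j) k - ((k : ZMod p) - i - j - s) * S.h i j -
      ((k : ZMod p) - i) * S.h j (i + k) - ((i : ZMod p) + k + s - j) * S.h i k = 0 := by
  have t1 := ((S.r_ev hi (by omega : 2 ≤ j + k)).zsmul ((k : ℤ) - j)).congr
    (M := i + j + k + s) (by omega) rfl rfl
  have t2 := (S.ev i hi _ _ _ (S.r_ev (by omega : 1 ≤ j) hk)).congr
    (M := i + j + k + s) (by omega) rfl rfl
  have t3 := ((S.r_ev (by omega : 1 ≤ i + j) hk).zsmul ((j : ℤ) - i)).congr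
    (M := i + j + k + s) (by omega) rfl rfl
  have t4 := ((S.r_ev hi hj).lie (S.hE k hk)).congr (M := i + j + k + s) (by omega) rfl rfl
  have t5 := ((S.r_ev (by omega : 1 ≤ j) (by omega : 2 ≤ i + k)).zsmul ((k : ℤ) - i)).congr
    (M := i + j + k + s) (by omega) rfl rfl
  have t6 := ((S.hE j hj).lie (S.r_ev hi hk)).congr (M := i + j + k + s) (by omega) rfl rfl
  have tot := (((((t1.add t2).sub t3).sub t4).sub t5).sub t6)
  have e : S.A i ⁅S.E j, S.E k⁆ - ⁅S.A i (S.E j), S.E k⁆ - ⁅S.E j, S.A i (S.E k)⁆ =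
      ((k : ℤ) - j) • S.r i (j + k) + S.A i (S.r j k) - ((j : ℤ) - i) • S.r (i + j) k -
        ⁅S.r i j, S.E k⁆ - ((k : ℤ) - i) • S.r j (i + k) - ⁅S.E j, S.r i k⁆ := by
    rw [S.lie_E hj k, map_add, map_zsmul, S.A_E i (j + k), S.A_E i j, S.A_E i k, add_lie, lie_add,
      zsmul_lie, lie_zsmul, S.lie_E (by omega : 2 ≤ i + j) k, S.lie_E hj (i + k),
      show i + (j + k) = i + j + k by ring, show j + (i + k) = i + j + k by ring]
    push_cast
    module
  have hz : F.Ev (i + j + k + s)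
      (S.A i ⁅S.E j, S.E k⁆ - ⁅S.A i (S.E j), S.E k⁆ - ⁅S.E j, S.A i (S.E k)⁆) 0 := by
    rcases hs with hs | hs
    · exact Fil.ev_deep (by omega) (S.leib i hi j k hj hk _ (S.hE j hj).mem _ (S.hE k hk).mem)
        (by omega)
    · simp only [S.ad i hs]
      rw [leibniz_lie]
      refine Fil.ev_deep (M := i + j + k + s + 1) (by omega) ?_ (by omega)
      simpa using zero_mem _
  rw [e] at hz
  have := tot.uniq hz hN
  push_cast at this
  linear_combination this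

/-- the cocycle -/
def g (i j : ℕ) : ZMod p := if j = 1 then (if i = 1 then 0 else -S.h 1 i) else S.h i j

lemma g_eq {j : ℕ} (hj : 2 ≤ j) (i : ℕ) : S.g i j = S.h i j := if_neg (by omega)

lemma g_anti {i j : ℕ} (hi : 1 ≤ i) (hj : 1 ≤ j) (hN : i + j + s < 2 * p) :
    S.g j i = -S.g i j := by
  rcases hi.eq_or_lt with rfl | hi <;> rcases hj.eq_or_lt with rfl | hj
  · simp [g]
  · rw [S.g_eq hj, g, if_pos rfl, if_neg (by omega)]
  · rw [S.g_eq hi, g, if_pos rfl, if_neg (by omega), neg_neg]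
  · rw [S.g_eq hi, S.g_eq hj, S.h_anti hi hj hN]

include S in
theorem step [hp : Fact p.Prime] (hA : Alg p) (hs1 : 1 ≤ s) (hs : s + 3 ≤ p) :
    Nonempty (Sta F (s + 1)) := by
  obtain ⟨t, ht⟩ := hA s (2 * p - 1 - s) (by omega) (by omega) S.g
    (fun i j hi hj h => S.g_anti hi hj (by omega))
    (fun i j k hi hj hk h => by
      have hc := S.cocycle hi hj hk (by omega) (by omega)
      rw [S.g_anti (i := i) (j := j + k) hi (by omega) (by omega),
        S.g_anti (i := j) (j := k + i) (by omega) (by omega) (by omega),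
        S.g_anti (i := i) (j := k) hi (by omega) (by omega), S.g_eq hk, S.g_eq hj,
        S.g_eq (by omega : 2 ≤ j + k), S.g_eq hk, S.g_eq (by omega : 2 ≤ k + i), S.g_eq hk,
        add_comm k i]
      linear_combination -hc)
  let τ : ℕ → ℤ := fun i => ((t i).val : ℤ)
  have hτ : ∀ i, ((τ i : ℤ) : ZMod p) = t i := fun i => by simp [τ]
  have hEs : ∀ i, 1 ≤ i → F.Ev (i + s) (S.E (i + s)) 1 := fun i hi => S.hE _ (by omega)
  refine ⟨⟨fun i => S.A i - τ i • adj (S.E (i + s)), fun j => S.E j - τ j • S.E (j + s),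
    fun j hj => ?_, fun i hi v => ?_, fun i hi m v c h => ?_,
    fun i hi j k hj hk a ha b hb => ?_, fun i j hi hj => ?_⟩⟩
  · exact ((S.hE j hj).sub
      (Fil.ev_deep hj (zsmul_mem (hEs j (by omega)).mem _) (by omega))).congr rfl rfl (by ring)
  · simp [S.ad i hi, sub_lie]
  · refine ((S.ev i hi m v c h).sub (Fil.ev_deep (by have := h.1; omega)
      (zsmul_mem ((hEs i hi).lie h).mem (τ i)) (by omega))).congr rfl (by simp) (by ring)
  · have e : (S.A i - τ i • adj (S.E (i + s))) ⁅a, b⁆ - ⁅(S.A i - τ i • adj (S.E (i + s))) a, b⁆ -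
        ⁅a, (S.A i - τ i • adj (S.E (i + s))) b⁆ =
        S.A i ⁅a, b⁆ - ⁅S.A i a, b⁆ - ⁅a, S.A i b⁆ := by
      simp only [AddMonoidHom.sub_apply, AddMonoidHom.smul_apply, adj_apply, sub_lie, lie_sub,
        zsmul_lie, lie_zsmul]
      rw [leibniz_lie (S.E (i + s)) a b]
      module
    rw [e]
    exact S.leib i hi j k hj hk a ha b hb
  · have t1 := S.r_ev hi hj
    have t2 := ((S.ev i hi _ _ _ (hEs j (by omega))).zsmul (τ j)).congr
      (M := i + j + s) (by omega) rfl rfl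
    have t3 := (((hEs i hi).lie (S.hE j hj)).zsmul (τ i)).congr
      (M := i + j + s) (by omega) rfl rfl
    have t4 := Fil.ev_deep (N := i + j + s) (by omega)
      (zsmul_mem ((hEs i hi).lie (hEs j (by omega))).mem (τ i * τ j)) (by omega)
    have t5 := (hEs (i + j) (by omega)).zsmul (((j : ℤ) - i) * τ (i + j))
    have tot := (((t1.sub t2).sub t3).add t4).add t5
    have e : (S.A i - τ i • adj (S.E (i + s))) (S.E j - τ j • S.E (j + s)) -
        ((j : ℤ) - i) • (S.E (i + j) - τ (i + j) • S.E (i + j + s)) =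
        S.r i j - τ j • S.A i (S.E (j + s)) - τ i • ⁅S.E (i + s), S.E j⁆ +
          (τ i * τ j) • ⁅S.E (i + s), S.E (j + s)⁆ +
          (((j : ℤ) - i) * τ (i + j)) • S.E (i + j + s) := by
      simp only [AddMonoidHom.sub_apply, AddMonoidHom.smul_apply, adj_apply, map_sub, map_zsmul,
        r]
      module
    rw [e]
    rcases lt_or_ge (i + j + s) (2 * p) with hN | hN
    · refine (tot.congr rfl rfl ?_).ker
      have h1 := ht i j hi (by omega) (by omega)
      rw [S.g_eq hj] at h1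
      push_cast
      rw [hτ, hτ, hτ, h1]
      ring
    · exact Fil.deep tot.mem hN

end Sta

theorem exists_sta [hp : Fact p.Prime] (F : Fil p L) (hA : Alg p) (s : ℕ) (hs1 : 1 ≤ s)
    (hs : s + 2 ≤ p) : Nonempty (Sta F s) := by
  induction s, hs1 using Nat.le_induction with
  | base => exact sta_one F
  | succ s hs1 ih =>
    obtain ⟨S⟩ := ih (by omega)
    exact S.step hA hs1 (by omega)

end Pool.Agent.P78.Rig
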