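import Mathlib

/-! The truncated logarithm is additive up to terms of high degree. -/

set_option autoImplicit false

namespace Pool.Agent.P78.Rig

open Polynomial Finset

/-- coefficients of `n !` times the truncated logarithm -/
def lc (n k : ℕ) : ℤ := (-1) ^ k * ((n.factorial / (k + 1) : ℕ) : ℤ)

/-- `n !` times the logarithm of `1 + T`, truncated at degree `n` -/
def lg {R : Type*} [Ring R] (n : ℕ) (T : R) : R := ∑ k ∈ range n, lc n k • T ^ (k + 1)

lemma map_lg {R S : Type*} [Ring R] [Ring S] (f : R →+* S) (n : ℕ) (T : R) :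
    f (lg n T) = lg n (f T) := by
  simp only [lg, map_sum, map_zsmul, map_pow]

lemma lc_mul {n k : ℕ} (h : k < n) : lc n k * ((k : ℤ) + 1) = (-1) ^ k * n.factorial := by
  have := Nat.div_mul_cancel (Nat.dvd_factorial (Nat.succ_pos k) h)
  rw [lc, mul_assoc]
  congr 1
  exact_mod_cast this

lemma der_lg {A : Type*} [CommRing A] (n : ℕ) (Z : A[X]) :
    (1 + Z) * derivative (lg n Z) = (n.factorial : A[X]) * (1 - (-Z) ^ n) * derivative Z := by
  have h1 : derivative (lg n Z) =
      (n.factorial : A[X]) * (∑ k ∈ range n, (-Z) ^ k) * derivative Z := by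
    rw [lg, derivative_sum, mul_sum, sum_mul]
    refine sum_congr rfl fun k hk => ?_
    have h := congrArg (fun z : ℤ => (z : A[X])) (lc_mul (mem_range.1 hk))
    simp only [Int.cast_mul, Int.cast_add, Int.cast_natCast, Int.cast_one, Int.cast_pow,
      Int.cast_neg] at h
    rw [map_zsmul, derivative_pow, zsmul_eq_mul, neg_pow Z]
    simp only [Nat.cast_add, Nat.cast_one, map_add, map_natCast, map_one, add_tsub_cancel_right]
    linear_combination (Z ^ k * derivative Z) * h
  have h2 := mul_neg_geom_sum (-Z) n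
  rw [h1]
  linear_combination (n.factorial : A[X]) * derivative Z * h2

lemma coeff_low {A : Type*} [CommRing A] [IsDomain A] [CharZero A] (n : ℕ) (x y : A) {m : ℕ}
    (hm : m ≤ n) :
    (lg n (C x * X + C y * X + C x * X * (C y * X)) - lg n (C x * X) - lg n (C y * X)).coeff m
      = 0 := by
  set u : A[X] := C x * X with hu
  set v : A[X] := C y * X with hv
  set P := lg n (u + v + u * v) - lg n u - lg n v with hP
  have hXu : X ∣ u := Dvd.intro_left _ rfl
  have hXv : X ∣ v := Dvd.intro_left _ rfl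
  have hXZ : X ∣ u + v + u * v := dvd_add (dvd_add hXu hXv) (hXu.mul_right _)
  have h1 : X ^ n ∣ (1 + (u + v + u * v)) * derivative P := by
    have e1 := der_lg n (u + v + u * v)
    have e2 := der_lg n u
    have e3 := der_lg n v
    have e4 : derivative (u + v + u * v) =
        derivative u + derivative v + (derivative u * v + u * derivative v) := by
      rw [derivative_add, derivative_add, derivative_mul (f := u)]
    have e : (1 + (u + v + u * v)) * derivative P =
        (n.factorial : A[X]) * (-(-(u + v + u * v)) ^ n * derivative (u + v + u * v) +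
          (-u) ^ n * ((1 + v) * derivative u) + (-v) ^ n * ((1 + u) * derivative v)) := by
      rw [hP, derivative_sub, derivative_sub]
      linear_combination e1 - (1 + v) * e2 - (1 + u) * e3 + (n.factorial : A[X]) * e4
    rw [e]
    refine Dvd.dvd.mul_left (dvd_add (dvd_add ?_ ?_) ?_) _
    · exact (dvd_neg.2 (pow_dvd_pow_of_dvd (dvd_neg.2 hXZ) n)).mul_right _
    · exact (pow_dvd_pow_of_dvd (dvd_neg.2 hXu) n).mul_right _
    · exact (pow_dvd_pow_of_dvd (dvd_neg.2 hXv) n).mul_right _
  have hc : IsCoprime (X ^ n) (1 + (u + v + u * v)) := by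
    obtain ⟨w, hw⟩ := hXZ
    rw [hw]
    exact IsCoprime.pow_left ⟨-w, 1, by ring⟩
  have h2 : X ^ n ∣ derivative P := hc.dvd_of_dvd_mul_left h1
  rcases m with _ | m
  · refine X_dvd_iff.1 ?_
    have key : ∀ w : A[X], X ∣ w → X ∣ lg n w := fun w hw =>
      dvd_sum fun k _ => by
        rw [zsmul_eq_mul, pow_succ]
        exact (hw.mul_left _).mul_left _
    exact dvd_sub (dvd_sub (key _ hXZ) (key _ hXu)) (key _ hXv)
  · have h3 := X_pow_dvd_iff.1 h2 m (by omega)
    rw [coeff_derivative] at h3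
    refine (mul_eq_zero.1 h3).resolve_right ?_
    exact_mod_cast Nat.succ_ne_zero m

/-- polynomials whose `n`-th coefficient has weight `n` -/
def rees {R : Type*} [Ring R] (J : ℕ → AddSubgroup R) (h1 : (1 : R) ∈ J 0)
    (hm : ∀ m n, ∀ a ∈ J m, ∀ b ∈ J n, a * b ∈ J (m + n)) : Subring R[X] where
  carrier := {f | ∀ n, f.coeff n ∈ J n}
  mul_mem' := fun {f g} hf hg n => by
    rw [coeff_mul]
    refine sum_mem fun x hx => ?_
    rw [← mem_antidiagonal.1 hx]
    exact hm _ _ _ (hf _) _ (hg _)
  one_mem' n := by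
    rw [coeff_one]
    split_ifs with h
    · rw [h]; exact h1
    · exact zero_mem _
  add_mem' := fun {f g} hf hg n => by rw [coeff_add]; exact add_mem (hf n) (hg n)
  zero_mem' n := by rw [coeff_zero]; exact zero_mem _
  neg_mem' := fun {f} hf n => by rw [coeff_neg]; exact neg_mem (hf n)

lemma map_lg_add {R S : Type*} [Ring R] [Ring S] (f : R →+* S) (n : ℕ) (x y : R) :
    f (lg n (x + y + x * y) - lg n x - lg n y) =
      lg n (f x + f y + f x * f y) - lg n (f x) - lg n (f y) := by
  simp only [map_sub, map_lg, map_add, map_mul]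

lemma lg_add_dom {A : Type*} [CommRing A] [IsDomain A] [CharZero A] (J : ℕ → AddSubgroup A)
    (hJ : Antitone J) (h1 : (1 : A) ∈ J 0)
    (hm : ∀ m n, ∀ a ∈ J m, ∀ b ∈ J n, a * b ∈ J (m + n)) {x y : A}
    (hx : x ∈ J 1) (hy : y ∈ J 1) (n : ℕ) :
    lg n (x + y + x * y) - lg n x - lg n y ∈ J (n + 1) := by
  have hgen : ∀ a ∈ J 1, C a * X ∈ rees J h1 hm := fun a ha k => by
    rw [coeff_C_mul, coeff_X]
    split_ifs with h
    · rw [← h, mul_one]; exact ha
    · rw [mul_zero]; exact zero_mem _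
  have hlg : ∀ w ∈ rees J h1 hm, lg n w ∈ rees J h1 hm := fun w hw =>
    sum_mem fun k _ => zsmul_mem (pow_mem hw _) _
  have hu := hgen x hx
  have hv := hgen y hy
  have hP := sub_mem (sub_mem (hlg _ (add_mem (add_mem hu hv) (mul_mem hu hv))) (hlg _ hu))
    (hlg _ hv)
  have hlow := fun m (hm : m ≤ n) => coeff_low n x y hm
  have e := map_lg_add (evalRingHom (1 : A)) n (C x * X) (C y * X)
  simp only [coe_evalRingHom, eval_mul, eval_C, eval_X, mul_one] at e
  rw [← e, eval_eq_sum_range]
  refine sum_mem fun k _ => ?_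
  rw [one_pow, mul_one]
  rcases le_or_gt k n with h | h
  · rw [hlow k h]; exact zero_mem _
  · exact hJ h (hP k)

theorem lg_add {R : Type*} [Ring R] (J : ℕ → AddSubgroup R) (hJ : Antitone J) (h1 : (1 : R) ∈ J 0)
    (hm : ∀ m n, ∀ a ∈ J m, ∀ b ∈ J n, a * b ∈ J (m + n)) {x y : R} (hxy : Commute x y)
    (hx : x ∈ J 1) (hy : y ∈ J 1) (n : ℕ) :
    lg n (x + y + x * y) - lg n x - lg n y ∈ J (n + 1) := by
  let φ₀ : ℤ[X] →+* R := (aeval x : ℤ[X] →ₐ[ℤ] R).toRingHom
  have hφ₀ : ∀ a, Commute (φ₀ a) y := by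
    intro a
    induction a using Polynomial.induction_on' with
    | add a b ha hb => rw [map_add]; exact ha.add_left hb
    | monomial k c =>
      show Commute (aeval x (monomial k c)) y
      rw [aeval_monomial]
      exact (Algebra.commute_algebraMap_left c y).mul_left (hxy.pow_left k)
  let φ : ℤ[X][X] →+* R := eval₂RingHom' φ₀ y hφ₀
  have hφx : φ (C X) = x := by
    show eval₂ φ₀ y (C X) = x
    rw [eval₂_C]
    exact aeval_X x
  have hφy : φ X = y := eval₂_X _ _
  let J' : ℕ → AddSubgroup ℤ[X][X] := fun k => (J k).comap φ.toAddMonoidHom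
  have h1' : (1 : ℤ[X][X]) ∈ J' 0 := by
    show φ 1 ∈ J 0
    rw [map_one]; exact h1
  have hm' : ∀ m n, ∀ a ∈ J' m, ∀ b ∈ J' n, a * b ∈ J' (m + n) := fun m n a ha b hb => by
    show φ (a * b) ∈ J (m + n)
    rw [map_mul]; exact hm _ _ _ ha _ hb
  have h := lg_add_dom J' (fun _ _ h => AddSubgroup.comap_mono (hJ h)) h1' hm' (x := C X) (y := X)
    (by show φ (C X) ∈ J 1; rw [hφx]; exact hx) (by show φ X ∈ J 1; rw [hφy]; exact hy) n
  have e := map_lg_add φ n (C X) X
  rw [hφx, hφy] at e
  rw [← e]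
  exact h

end Pool.Agent.P78.Rig
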